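import Pool.Agent.N208.BT.Stm5

/-!
# Project BG (helper208), part PD: the complex part (helper768)

Let `MS` be an irreducible monoid of matrices, whose commutators are in `ℂ 𝔯 + ℂ 1`, where `𝔯` is a
real space of skew-hermitian matrices of trace zero. Then `𝔯` contains all long roots.
-/

set_option autoImplicit false
set_option linter.unusedSectionVars false

namespace Pool.Agent.N768.BG

open Module Matrix Pool.Agent.N208.BT

noncomputable section

/-- Burnside's theorem -/
theorem burnside {V : Type*} [AddCommGroup V] [Module ℂ V] [FiniteDimensional ℂ V]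
    [Nontrivial V] (S : Subalgebra ℂ (Module.End ℂ V))
    (hirr : ∀ U : Submodule ℂ V, (∀ a ∈ S, ∀ u ∈ U, a u ∈ U) → U = ⊥ ∨ U = ⊤)
    (T : Module.End ℂ V) : T ∈ S := by
  classical
  have hsm : ∀ (c : ℂ) (v : V), (algebraMap ℂ S c) • v = c • v := by
    intro c v
    rw [Subalgebra.smul_def, Subalgebra.coe_algebraMap, Module.End.smul_def,
      Module.algebraMap_end_apply]
  have hsemi : IsSemisimpleModule S V := by
    rw [isSemisimpleModule_iff]
    refine { exists_isCompl := fun W => ?_ }
    let W1 : Submodule ℂ V :=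
      { carrier := W
        add_mem' := fun h1 h2 => W.add_mem h1 h2
        zero_mem' := W.zero_mem
        smul_mem' := fun c w hw => by
          have h1 : (algebraMap ℂ S c) • w ∈ W := W.smul_mem _ hw
          rw [hsm] at h1
          exact h1 }
    have hW1 : ∀ x, x ∈ W1 ↔ x ∈ W := fun x => Iff.rfl
    rcases hirr W1 (fun a ha w hw => W.smul_mem (⟨a, ha⟩ : S) hw) with h | h
    · refine ⟨⊤, ?_⟩
      have h2 : W = ⊥ := by
        rw [eq_bot_iff]
        intro x hx
        rw [← hW1, h, Submodule.mem_bot] at hx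
        rw [hx]
        exact Submodule.zero_mem _
      rw [h2]
      exact isCompl_bot_top
    · refine ⟨⊥, ?_⟩
      have h2 : W = ⊤ := by
        rw [eq_top_iff]
        intro x _
        rw [← hW1, h]
        exact Submodule.mem_top
      rw [h2]
      exact isCompl_top_bot
  let f : Module.End (Module.End S V) V :=
    { toFun := T
      map_add' := fun x y => map_add T x y
      map_smul' := fun g v => by
        let d : Module.End ℂ V :=
          { toFun := g
            map_add' := fun x y => map_add g x y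
            map_smul' := fun c v => by
              rw [← hsm, map_smul, hsm]
              rfl }
        obtain ⟨c, hc⟩ := Module.End.exists_eigenvalue d
        have hst := hirr (Module.End.eigenspace d c) (fun a ha w hw => by
          rw [Module.End.mem_eigenspace_iff] at hw ⊢
          have h2 : d (a w) = a (d w) := g.map_smul (⟨a, ha⟩ : S) w
          rw [h2, hw, map_smul])
        rcases hst with hst | hst
        · exact absurd hst hc
        · have h5 : ∀ x : V, d x = c • x := by
            intro x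
            have h6 : x ∈ Module.End.eigenspace d c := by
              rw [hst]
              exact Submodule.mem_top
            rw [Module.End.mem_eigenspace_iff] at h6
            exact h6
          change T (d v) = d (T v)
          rw [h5, h5, map_smul] }
  let b := Module.finBasis ℂ V
  obtain ⟨r, hr⟩ := jacobson_density f (Finset.univ.image b)
  have h1 : T = r.1 := b.ext fun i => hr (b i) (Finset.mem_image_of_mem _ (Finset.mem_univ i))
  rw [h1]
  exact r.2

theorem burnside_mat {N : ℕ} (hN : 0 < N) (S : Subalgebra ℂ (MN N))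
    (hirr : ∀ U : Submodule ℂ (VN N), (∀ X ∈ S, ∀ u ∈ U, X *ᵥ u ∈ U) → U = ⊥ ∨ U = ⊤)
    (m : MN N) : m ∈ S := by
  have : Nonempty (Fin N) := ⟨⟨0, hN⟩⟩
  let e : MN N ≃ₐ[ℂ] Module.End ℂ (VN N) := Matrix.toLinAlgEquiv'
  have h := burnside (S.map (e : MN N →ₐ[ℂ] Module.End ℂ (VN N)))
    (fun U hU => hirr U fun X hX u hu => hU (e X) ⟨X, hX, rfl⟩ u hu) (e m)
  obtain ⟨m', hm', h1⟩ := h
  have h2 : m' = m := e.injective h1
  rwa [← h2]

section Form

variable {N : ℕ} (sg : Fin N → ℝ)

theorem hs_smul_left (c : ℂ) (x y : VN N) : hs sg (c • x) y = c * hs sg x y := by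
  simp only [hs, Pi.smul_apply, smul_eq_mul, Finset.mul_sum]
  refine Finset.sum_congr rfl fun i _ => ?_
  ring

theorem hs_smul_right (c : ℂ) (x y : VN N) : hs sg x (c • y) = star c * hs sg x y := by
  simp only [hs, Pi.smul_apply, smul_eq_mul, Finset.mul_sum, star_mul']
  refine Finset.sum_congr rfl fun i _ => ?_
  ring

theorem hs_add_left (x x' y : VN N) : hs sg (x + x') y = hs sg x y + hs sg x' y := by
  simp only [hs, Pi.add_apply, ← Finset.sum_add_distrib]
  refine Finset.sum_congr rfl fun i _ => ?_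
  ring

theorem hs_add_right (x y y' : VN N) : hs sg x (y + y') = hs sg x y + hs sg x y' := by
  simp only [hs, Pi.add_apply, star_add, ← Finset.sum_add_distrib]
  refine Finset.sum_congr rfl fun i _ => ?_
  ring

theorem hs_star (x y : VN N) : star (hs sg x y) = hs sg y x := by
  simp only [hs, star_sum, star_mul', star_star]
  refine Finset.sum_congr rfl fun i _ => ?_
  have h : star ((sg i : ℝ) : ℂ) = ((sg i : ℝ) : ℂ) := Complex.conj_ofReal _
  rw [h]
  ring

theorem hs_single_left (i : Fin N) (y : VN N) : hs sg (Pi.single i 1) y = sg i * star (y i) := by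
  unfold hs
  rw [Finset.sum_eq_single i]
  · rw [Pi.single_eq_same, mul_one]
  · intro j _ hj
    rw [Pi.single_eq_of_ne hj, mul_zero, zero_mul]
  · intro h
    exact absurd (Finset.mem_univ i) h

theorem hs_single_right (i : Fin N) (x : VN N) : hs sg x (Pi.single i 1) = sg i * x i := by
  rw [← hs_star, hs_single_left, star_mul', star_star]
  congr 1
  exact Complex.conj_ofReal _

theorem Rs_mulVec (a b x : VN N) : Rs sg a b *ᵥ x = hs sg x b • a := by
  ext i
  have h : ∀ j, Rs sg a b i j = a i * (sg j * star (b j)) := fun j => by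
    unfold Rs
    rw [Matrix.of_apply, hs_single_left]
  simp only [Matrix.mulVec, dotProduct, h, Pi.smul_apply, smul_eq_mul, hs, Finset.sum_mul]
  refine Finset.sum_congr rfl fun j _ => ?_
  ring

theorem Rs_mul (a b c d : VN N) : Rs sg a b * Rs sg c d = hs sg c b • Rs sg a d := by
  apply Matrix.mulVec_injective
  funext x
  rw [← Matrix.mulVec_mulVec, Rs_mulVec, Rs_mulVec, Matrix.smul_mulVec, Rs_mulVec, hs_smul_left,
    smul_smul, mul_comm]

theorem Rs_comm {x : VN N} (hx : hs sg x x = 0) (y : VN N) :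
    Rs sg x y * Rs sg x x - Rs sg x x * Rs sg x y = hs sg x y • Rs sg x x := by
  rw [Rs_mul, Rs_mul, hx, zero_smul, sub_zero]

theorem isSks_Rs (x : VN N) : IsSks sg (Complex.I • Rs sg x x) := by
  intro u v
  rw [Matrix.smul_mulVec, Matrix.smul_mulVec, Rs_mulVec, Rs_mulVec, hs_smul_left, hs_smul_left,
    hs_smul_right, hs_smul_right, hs_star]
  have h : star Complex.I = -Complex.I := Complex.conj_I
  rw [h]
  ring

variable {sg}

theorem sg_ne (hsg : IsSg sg) (i : Fin N) : ((sg i : ℝ) : ℂ) ≠ 0 := by
  rcases hsg i with h | h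
  · rw [h]
    norm_num
  · rw [h]
    norm_num

theorem eq_zero_of_hs (hsg : IsSg sg) {x : VN N} (h : ∀ y, hs sg x y = 0) : x = 0 := by
  funext i
  have h1 := h (Pi.single i 1)
  rw [hs_single_right] at h1
  exact (mul_eq_zero.1 h1).resolve_left (sg_ne hsg i)

theorem mat_eq_zero (hsg : IsSg sg) {b : MN N} (h : ∀ x y, hs sg (b *ᵥ x) y = 0) : b = 0 := by
  apply Matrix.mulVec_injective
  funext x
  rw [Matrix.zero_mulVec]
  exact eq_zero_of_hs hsg (h x)

/-- a space which contains all commutators contains the long roots -/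
theorem Rs_mem (hsg : IsSg sg) {S : Submodule ℂ (MN N)} (hS : ∀ a b : MN N, a * b - b * a ∈ S)
    {x : VN N} (hx : hs sg x x = 0) : Rs sg x x ∈ S := by
  by_cases h0 : x = 0
  · have h1 : Rs sg x x = 0 := by
      apply Matrix.mulVec_injective
      funext y
      rw [Rs_mulVec, h0, smul_zero, Matrix.zero_mulVec]
    rw [h1]
    exact S.zero_mem
  · obtain ⟨y, hy⟩ : ∃ y, hs sg x y ≠ 0 := by
      by_contra hcon
      push Not at hcon
      exact h0 (eq_zero_of_hs hsg hcon)
    have h1 := S.smul_mem (hs sg x y)⁻¹ (hS (Rs sg x y) (Rs sg x x))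
    rwa [Rs_comm sg hx, smul_smul, inv_mul_cancel₀ hy, one_smul] at h1

/-- elements of the complexification -/
theorem exists_dec {𝔯 : Submodule ℝ (MN N)} {X : MN N}
    (hX : X ∈ Submodule.span ℂ (𝔯 : Set (MN N))) :
    ∃ a ∈ 𝔯, ∃ b ∈ 𝔯, X = a + Complex.I • b := by
  induction hX using Submodule.span_induction with
  | mem X hX => exact ⟨X, hX, 0, 𝔯.zero_mem, by rw [smul_zero, add_zero]⟩
  | zero => exact ⟨0, 𝔯.zero_mem, 0, 𝔯.zero_mem, by rw [smul_zero, add_zero]⟩
  | add X Y _ _ hX hY =>
    obtain ⟨a, ha, b, hb, rfl⟩ := hX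
    obtain ⟨a', ha', b', hb', rfl⟩ := hY
    exact ⟨a + a', 𝔯.add_mem ha ha', b + b', 𝔯.add_mem hb hb', by
      rw [smul_add]
      abel⟩
  | smul c X _ hX =>
    obtain ⟨a, ha, b, hb, rfl⟩ := hX
    refine ⟨c.re • a - c.im • b, 𝔯.sub_mem (𝔯.smul_mem _ ha) (𝔯.smul_mem _ hb),
      c.im • a + c.re • b, 𝔯.add_mem (𝔯.smul_mem _ ha) (𝔯.smul_mem _ hb), ?_⟩
    ext i j
    simp only [Matrix.smul_apply, Matrix.add_apply, Matrix.sub_apply, smul_eq_mul,
      Complex.real_smul]
    conv_lhs => rw [← Complex.re_add_im c]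
    linear_combination ((c.im : ℂ) * b i j) * Complex.I_mul_I

/-- a skew element of the complexification is in the real space -/
theorem mem_of_skew (hsg : IsSg sg) {𝔯 : Submodule ℝ (MN N)} (hsk : ∀ X ∈ 𝔯, IsSks sg X) {X : MN N}
    (hX : X ∈ Submodule.span ℂ (𝔯 : Set (MN N))) (hXs : IsSks sg X) : X ∈ 𝔯 := by
  obtain ⟨a, ha, b, hb, rfl⟩ := exists_dec hX
  have h0 : b = 0 := by
    refine mat_eq_zero hsg fun x y => ?_
    have h1 := hXs x y
    have h2 := hsk a ha x y
    have h3 := hsk b hb x y
    rw [Matrix.add_mulVec, Matrix.add_mulVec, hs_add_left, hs_add_right, Matrix.smul_mulVec,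
      Matrix.smul_mulVec, hs_smul_left, hs_smul_right] at h1
    have h : star Complex.I = -Complex.I := Complex.conj_I
    rw [h] at h1
    have h4 : 2 * Complex.I * hs sg (b *ᵥ x) y = 0 := by
      linear_combination h1 - h2 + Complex.I * h3
    have h5 : (2 : ℂ) * Complex.I ≠ 0 := mul_ne_zero two_ne_zero Complex.I_ne_zero
    exact (mul_eq_zero.1 h4).resolve_left h5
  rw [h0, smul_zero, add_zero]
  exact ha

/-- **The complex part.** -/
theorem long_root (hN : 0 < N) (hsg : IsSg sg) {𝔯 : Submodule ℝ (MN N)}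
    (hsk : ∀ X ∈ 𝔯, IsSks sg X) (htr : ∀ X ∈ 𝔯, X.trace = 0) (MS : Submonoid (MN N))
    (hirr : ∀ U : Submodule ℂ (VN N), (∀ X ∈ MS, ∀ u ∈ U, X *ᵥ u ∈ U) → U = ⊥ ∨ U = ⊤)
    (hc : ∀ X ∈ MS, ∀ Y ∈ MS, X * Y - Y * X ∈
      Submodule.span ℂ (𝔯 : Set (MN N)) ⊔ Submodule.span ℂ {(1 : MN N)}) : Big sg 𝔯 := by
  have htr' : ∀ X ∈ Submodule.span ℂ (𝔯 : Set (MN N)), X.trace = 0 := by
    intro X hX
    induction hX using Submodule.span_induction with
    | mem X hX => exact htr X hX
    | zero => exact Matrix.trace_zero _ _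
    | add a b _ _ ha hb => rw [Matrix.trace_add, ha, hb, add_zero]
    | smul c a _ ha => rw [Matrix.trace_smul, ha, smul_zero]
  have hc1 : ∀ X ∈ MS, ∀ Y ∈ MS, X * Y - Y * X ∈ Submodule.span ℂ (𝔯 : Set (MN N)) := by
    intro X hX Y hY
    obtain ⟨a, ha, b, hb, h⟩ := Submodule.mem_sup.1 (hc X hX Y hY)
    obtain ⟨c, rfl⟩ := Submodule.mem_span_singleton.1 hb
    have h1 : (X * Y - Y * X).trace = 0 := by
      rw [Matrix.trace_sub, Matrix.trace_mul_comm, sub_self]
    rw [← h, Matrix.trace_add, htr' a ha, zero_add, Matrix.trace_smul, Matrix.trace_one,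
      Fintype.card_fin, smul_eq_mul] at h1
    have h2 : (N : ℂ) ≠ 0 := by exact_mod_cast hN.ne'
    have h3 : c = 0 := (mul_eq_zero.1 h1).resolve_right h2
    rw [← h, h3, zero_smul, add_zero]
    exact ha
  have hall : ∀ m : MN N, m ∈ Submodule.span ℂ (MS : Set (MN N)) := by
    intro m
    have h1 : m ∈ Algebra.adjoin ℂ (MS : Set (MN N)) := by
      refine burnside_mat hN _ (fun U hU => hirr U fun X hX u hu => ?_) m
      exact hU X (Algebra.subset_adjoin hX) u hu
    rw [← Subalgebra.mem_toSubmodule, Algebra.adjoin_eq_span, Submonoid.closure_eq] at h1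
    exact h1
  have hcomm : ∀ a b : MN N, a * b - b * a ∈ Submodule.span ℂ (𝔯 : Set (MN N)) := by
    intro a b
    have ha := hall a
    induction ha using Submodule.span_induction with
    | mem a ha =>
      have hb := hall b
      induction hb using Submodule.span_induction with
      | mem b hb => exact hc1 a ha b hb
      | zero =>
        rw [mul_zero, zero_mul, sub_self]
        exact Submodule.zero_mem _
      | add b c _ _ hb hc =>
        rw [mul_add, add_mul, add_sub_add_comm]
        exact Submodule.add_mem _ hb hc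
      | smul c b _ hb =>
        rw [mul_smul_comm, smul_mul_assoc, ← smul_sub]
        exact Submodule.smul_mem _ c hb
    | zero =>
      rw [mul_zero, zero_mul, sub_self]
      exact Submodule.zero_mem _
    | add a c _ _ ha hc =>
      rw [add_mul, mul_add, add_sub_add_comm]
      exact Submodule.add_mem _ ha hc
    | smul c a _ ha =>
      rw [mul_smul_comm, smul_mul_assoc, ← smul_sub]
      exact Submodule.smul_mem _ c ha
  intro x hx
  exact mem_of_skew hsg hsk (Submodule.smul_mem _ _ (Rs_mem hsg hcomm hx)) (isSks_Rs sg x)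

end Form

end

end Pool.Agent.N768.BG
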