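import Pool.Agent.N144.DV.Bimod

/-!
# Project BG (helper208), part PD: the rational part (helper768)

Let `C` be an algebra of endomorphisms, `z` a central element of `C`, and suppose that the elements
of `C` act on the image of `z` as a division algebra of dimension `p ^ 2` over the field generated by
`z`, `p` a prime number. Then the combinations of the elements of a noncommutative Lie subalgebra with
coefficients in the polynomials in `z` contain all commutators, on the image of `z`.
-/

set_option autoImplicit false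
set_option linter.unusedSectionVars false

namespace Pool.Agent.N768.BG

open Module Polynomial Pool.Agent.N144.DV

noncomputable section

/-- the homomorphism from the field generated by `z` -/
def ph {k B : Type*} [Field k] [Ring B] [Algebra k B] (z : B) :
    AdjoinRoot (minpoly k z) →ₐ[k] B :=
  Ideal.Quotient.liftₐ (Ideal.span {minpoly k z}) (aeval z) (by
    intro a ha
    rw [Ideal.mem_span_singleton] at ha
    obtain ⟨q, rfl⟩ := ha
    rw [map_mul, minpoly.aeval, zero_mul])

theorem ph_mk {k B : Type*} [Field k] [Ring B] [Algebra k B] (z : B) (q : k[X]) :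
    ph z (AdjoinRoot.mk (minpoly k z) q) = aeval z q := rfl

theorem ph_range {k B : Type*} [Field k] [Ring B] [Algebra k B] (z : B) :
    (ph (k := k) z).range = Algebra.adjoin k {z} := by
  rw [Algebra.adjoin_singleton_eq_range_aeval]
  apply le_antisymm
  · rintro _ ⟨a, rfl⟩
    obtain ⟨q, rfl⟩ := AdjoinRoot.mk_surjective a
    exact ⟨q, rfl⟩
  · rintro _ ⟨q, rfl⟩
    exact ⟨AdjoinRoot.mk _ q, rfl⟩

/-- multiplication by polynomials in `z` -/
theorem aeval_mul_mem {k B : Type*} [Field k] [Ring B] [Algebra k B] {z : B} {S : Submodule k B}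
    (hS : ∀ b ∈ S, z * b ∈ S) (q : k[X]) {b : B} (hb : b ∈ S) : aeval z q * b ∈ S := by
  induction q using Polynomial.induction_on generalizing b with
  | C c =>
    rw [aeval_C, ← Algebra.smul_def]
    exact S.smul_mem c hb
  | add p q hp hq =>
    rw [map_add, add_mul]
    exact S.add_mem (hp hb) (hq hb)
  | monomial n c hn =>
    rw [pow_succ, ← mul_assoc, map_mul, aeval_X, mul_assoc]
    exact hn (hS b hb)

/-- The theorem on division algebras of prime degree, the centre being given by an element. -/
theorem comm_mem_k {k B : Type*} [Field k] [CharZero k] [Ring B] [IsDomain B] [Algebra k B]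
    [FiniteDimensional k B] {p : ℕ} (hp : p.Prime) (z : B) (hz : ∀ b, b * z = z * b)
    (hrk : finrank k B = p ^ 2 * finrank k (Algebra.adjoin k {z}))
    (𝔨 : Submodule k B) (hz𝔨 : ∀ b ∈ 𝔨, z * b ∈ 𝔨)
    (hbr : ∀ x ∈ 𝔨, ∀ y ∈ 𝔨, x * y - y * x ∈ 𝔨) {x y : B} (hx : x ∈ 𝔨) (hy : y ∈ 𝔨)
    (hxy : x * y ≠ y * x) (a b : B) : a * b - b * a ∈ 𝔨 := by
  let _ : DivisionRing B := divisionRingOfFiniteDimensional k B
  have hirr : Irreducible (minpoly k z) := minpoly.irreducible (Algebra.IsIntegral.isIntegral z)
  have : Fact (Irreducible (minpoly k z)) := ⟨hirr⟩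
  have hcomm : ∀ (e : AdjoinRoot (minpoly k z)) (b : B), ph z e * b = b * ph z e := by
    intro e b
    obtain ⟨q, rfl⟩ := AdjoinRoot.mk_surjective e
    rw [ph_mk]
    induction q using Polynomial.induction_on with
    | C c =>
      rw [aeval_C]
      exact Algebra.commutes c b
    | add p q hp hq => rw [map_add, add_mul, mul_add, hp, hq]
    | monomial n c hn =>
      rw [pow_succ, ← mul_assoc, map_mul, aeval_X, mul_assoc, ← hz b, ← mul_assoc, hn, mul_assoc]
  let _ : Algebra (AdjoinRoot (minpoly k z)) B :=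
    (ph (k := k) z : AdjoinRoot (minpoly k z) →+* B).toAlgebra' hcomm
  have hsm : ∀ (e : AdjoinRoot (minpoly k z)) (b : B), e • b = ph z e * b := fun e b => rfl
  have htow : IsScalarTower k (AdjoinRoot (minpoly k z)) B := ⟨fun c e b => by
    rw [hsm, hsm, map_smul, smul_mul_assoc]⟩
  have hfin : FiniteDimensional (AdjoinRoot (minpoly k z)) B :=
    FiniteDimensional.right k (AdjoinRoot (minpoly k z)) B
  have hcz : CharZero (AdjoinRoot (minpoly k z)) :=
    charZero_of_injective_algebraMap (algebraMap k (AdjoinRoot (minpoly k z))).injective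
  have hinj : Function.Injective (ph (k := k) z) := (ph (k := k) z).toRingHom.injective
  have h1 : finrank k (AdjoinRoot (minpoly k z)) = finrank k (Algebra.adjoin k {z}) := by
    rw [← ph_range]
    exact (AlgEquiv.ofInjective (ph (k := k) z) hinj).toLinearEquiv.finrank_eq
  have hfE : FiniteDimensional k (AdjoinRoot (minpoly k z)) :=
    FiniteDimensional.of_injective (ph (k := k) z).toLinearMap hinj
  have hfr : finrank (AdjoinRoot (minpoly k z)) B = p ^ 2 := by
    have h2 := finrank_mul_finrank k (AdjoinRoot (minpoly k z)) B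
    rw [hrk, ← h1, mul_comm] at h2
    exact Nat.eq_of_mul_eq_mul_right finrank_pos h2
  let 𝔨' : Submodule (AdjoinRoot (minpoly k z)) B :=
    { carrier := 𝔨
      zero_mem' := 𝔨.zero_mem
      add_mem' := fun {a b} ha hb => 𝔨.add_mem ha hb
      smul_mem' := fun e b hb => by
        rw [hsm]
        obtain ⟨q, rfl⟩ := AdjoinRoot.mk_surjective e
        rw [ph_mk]
        exact aeval_mul_mem hz𝔨 q hb }
  exact comm_mem (E := AdjoinRoot (minpoly k z)) (B := B) hp hfr 𝔨' hbr hx hy hxy a b

section Rat

variable {k V : Type*} [Field k] [AddCommGroup V] [Module k V]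

/-- restriction to the image of `z` -/
def resI (C : Subalgebra k (Module.End k V)) (z : Module.End k V)
    (hz : ∀ X ∈ C, X * z = z * X) : C →ₐ[k] Module.End k (LinearMap.range z) :=
  AlgHom.ofLinearMap
    { toFun := fun X => (X : Module.End k V).restrict (p := LinearMap.range z)
        (q := LinearMap.range z) (by
          rintro _ ⟨v, rfl⟩
          exact ⟨(X : Module.End k V) v, (LinearMap.congr_fun (hz X X.2) v).symm⟩)
      map_add' := fun X Y => rfl
      map_smul' := fun c X => rfl } rfl fun X Y => rfl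

theorem resI_apply (C : Subalgebra k (Module.End k V)) (z : Module.End k V)
    (hz : ∀ X ∈ C, X * z = z * X) (X : C) (u : LinearMap.range z) :
    ((resI C z hz X u : LinearMap.range z) : V) = (X : Module.End k V) u := rfl

theorem resI_zero (C : Subalgebra k (Module.End k V)) (z : Module.End k V)
    (hz : ∀ X ∈ C, X * z = z * X) (X : C) :
    resI C z hz X = 0 ↔ (X : Module.End k V) * z = 0 := by
  constructor
  · intro h
    refine LinearMap.ext fun v => ?_
    have h1 := congrArg (fun T : Module.End k (LinearMap.range z) => ((T ⟨z v, v, rfl⟩ :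
      LinearMap.range z) : V)) h
    exact h1
  · intro h
    refine LinearMap.ext fun u => Subtype.ext ?_
    obtain ⟨_, v, rfl⟩ := u
    exact LinearMap.congr_fun h v

theorem finrank_map_eq {M U₁ U₂ : Type*} [AddCommGroup M] [Module k M] [FiniteDimensional k M]
    [AddCommGroup U₁] [Module k U₁] [AddCommGroup U₂] [Module k U₂] (f : M →ₗ[k] U₁)
    (g : M →ₗ[k] U₂) (h : ∀ x, f x = 0 ↔ g x = 0) (P : Submodule k M) :
    finrank k (P.map f) = finrank k (P.map g) := by
  have h1 := LinearMap.finrank_range_add_finrank_ker (f.domRestrict P)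
  have h2 := LinearMap.finrank_range_add_finrank_ker (g.domRestrict P)
  have h3 : LinearMap.ker (f.domRestrict P) = LinearMap.ker (g.domRestrict P) := by
    ext x
    rw [LinearMap.mem_ker, LinearMap.mem_ker]
    exact h x
  rw [LinearMap.range_domRestrict] at h1 h2
  rw [h3] at h1
  omega

/-- **The rational part.** -/
theorem rat_part [CharZero k] [FiniteDimensional k V] (C : Subalgebra k (Module.End k V))
    (z : Module.End k V) (hzC : z ∈ C) (hz : ∀ X ∈ C, X * z = z * X)
    (hdiv : ∀ X ∈ C, X * z ≠ 0 → ∀ v, X (z v) = 0 → z v = 0) {p : ℕ} (hp : p.Prime)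
    (hrk : finrank k (C.toSubmodule.map (LinearMap.mulRight k z)) =
      p ^ 2 * finrank k ((Algebra.adjoin k {z}).toSubmodule.map (LinearMap.mulRight k z)))
    (𝔮 : Submodule k (Module.End k V)) (hqC : ∀ X ∈ 𝔮, X ∈ C)
    (hbr : ∀ X ∈ 𝔮, ∀ Y ∈ 𝔮, X * Y - Y * X ∈ 𝔮) {x y : Module.End k V} (hx : x ∈ 𝔮) (hy : y ∈ 𝔮)
    (hxy : (x * y - y * x) * z ≠ 0) {X Y : Module.End k V} (hX : X ∈ C) (hY : Y ∈ C) :
    ∃ W ∈ Submodule.span k {T | ∃ (q : k[X]) (s : Module.End k V), s ∈ 𝔮 ∧ T = aeval z q * s},
      (X * Y - Y * X) * z = W * z := by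
  -- the module of combinations
  obtain ⟨T, hT⟩ : ∃ T : Submodule k (Module.End k V), T =
      Submodule.span k {T | ∃ (q : k[X]) (s : Module.End k V), s ∈ 𝔮 ∧ T = aeval z q * s} := ⟨_, rfl⟩
  rw [← hT]
  have hpz : ∀ q : k[X], aeval z q ∈ C := fun q => by
    have h1 := (aeval (⟨z, hzC⟩ : C) q).2
    rwa [aeval_subalgebra_coe] at h1
  have hpc : ∀ (q : k[X]) (s : Module.End k V), s ∈ C → s * aeval z q = aeval z q * s := by
    intro q s hs
    induction q using Polynomial.induction_on with
    | C c =>
      rw [aeval_C]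
      exact (Algebra.commutes c s).symm
    | add p q hp hq => rw [map_add, add_mul, mul_add, hp, hq]
    | monomial n c hn =>
      rw [pow_succ, ← mul_assoc, map_mul, aeval_X, ← mul_assoc, hn, mul_assoc, hz s hs,
        ← mul_assoc]
  have hTC : T ≤ C.toSubmodule := by
    rw [hT, Submodule.span_le]
    rintro _ ⟨q, s, hs, rfl⟩
    exact C.mul_mem (hpz q) (hqC s hs)
  have hqT : ∀ s ∈ 𝔮, s ∈ T := fun s hs => by
    rw [hT]
    exact Submodule.subset_span ⟨1, s, hs, by rw [map_one, one_mul]⟩
  have hzT : ∀ a ∈ T, z * a ∈ T := by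
    intro a ha
    rw [hT] at ha ⊢
    induction ha using Submodule.span_induction with
    | mem a ha =>
      obtain ⟨q, s, hs, rfl⟩ := ha
      exact Submodule.subset_span ⟨Polynomial.X * q, s, hs, by
        rw [map_mul, aeval_X, mul_assoc]⟩
    | zero => rw [mul_zero]; exact Submodule.zero_mem _
    | add a b _ _ ha hb => rw [mul_add]; exact Submodule.add_mem _ ha hb
    | smul c a _ ha => rw [mul_smul_comm]; exact Submodule.smul_mem _ c ha
  have hTbr : ∀ a ∈ T, ∀ b ∈ T, a * b - b * a ∈ T := by
    intro a ha b hb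
    rw [hT] at ha hb
    induction ha using Submodule.span_induction with
    | mem a ha =>
      obtain ⟨q, s, hs, rfl⟩ := ha
      induction hb using Submodule.span_induction with
      | mem b hb =>
        obtain ⟨q', s', hs', rfl⟩ := hb
        rw [hT]
        refine Submodule.subset_span ⟨q * q', s * s' - s' * s, hbr s hs s' hs', ?_⟩
        have e1 := hpc q' s (hqC s hs)
        have e2 := hpc q s' (hqC s' hs')
        have e3 : aeval z q' * aeval z q = aeval z q * aeval z q' := by
          rw [← map_mul, ← map_mul, mul_comm]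
        have e4 : aeval z q * s * (aeval z q' * s') = aeval z q * aeval z q' * (s * s') := by
          rw [mul_assoc, ← mul_assoc s, e1]
          simp only [mul_assoc]
        have e5 : aeval z q' * s' * (aeval z q * s) = aeval z q * aeval z q' * (s' * s) := by
          rw [mul_assoc, ← mul_assoc s', e2, ← e3]
          simp only [mul_assoc]
        rw [e4, e5, map_mul, mul_sub]
      | zero => rw [mul_zero, zero_mul, sub_self]; exact T.zero_mem
      | add b c _ _ hb hc =>
        rw [mul_add, add_mul, add_sub_add_comm]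
        exact T.add_mem hb hc
      | smul c b _ hb =>
        rw [mul_smul_comm, smul_mul_assoc, ← smul_sub]
        exact T.smul_mem c hb
    | zero => rw [mul_zero, zero_mul, sub_self]; exact T.zero_mem
    | add a c _ _ ha hc =>
      rw [add_mul, mul_add, add_sub_add_comm]
      exact T.add_mem ha hc
    | smul c a _ ha =>
      rw [mul_smul_comm, smul_mul_assoc, ← smul_sub]
      exact T.smul_mem c ha
  -- the division algebra
  obtain ⟨F, hFv, hF0⟩ : ∃ F : C →ₐ[k] Module.End k (LinearMap.range z),
      (∀ (X : C) (u : LinearMap.range z), ((F X u : LinearMap.range z) : V) =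
        (X : Module.End k V) u) ∧ ∀ X : C, F X = 0 ↔ (X : Module.End k V) * z = 0 :=
    ⟨resI C z hz, resI_apply C z hz, resI_zero C z hz⟩
  have hFinj : ∀ X : C, F X ≠ 0 → Function.Injective (F X) := by
    intro X hX
    rw [injective_iff_map_eq_zero]
    rintro ⟨_, v, rfl⟩ hu
    apply Subtype.ext
    refine hdiv X X.2 (fun h => hX ((hF0 X).2 h)) v ?_
    have h1 := hFv X ⟨z v, v, rfl⟩
    rw [hu] at h1
    exact h1.symm
  have hne0 : F (⟨x, hqC x hx⟩ * ⟨y, hqC y hy⟩ - ⟨y, hqC y hy⟩ * ⟨x, hqC x hx⟩) ≠ 0 := fun h =>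
    hxy ((hF0 _).1 h)
  have hntI : Nontrivial (LinearMap.range z) := by
    by_contra hcon
    rw [not_nontrivial_iff_subsingleton] at hcon
    exact hne0 (Subsingleton.elim _ _)
  have hdom : IsDomain F.range := by
    have h2 : NoZeroDivisors F.range := by
      refine ⟨fun {a b} hab => ?_⟩
      obtain ⟨_, a, rfl⟩ := a
      obtain ⟨_, b, rfl⟩ := b
      by_contra hcon
      push Not at hcon
      have ha := hFinj a fun h => hcon.1 (Subtype.ext h)
      have hb := hFinj b fun h => hcon.2 (Subtype.ext h)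
      obtain ⟨v, hv⟩ := exists_ne (0 : LinearMap.range z)
      have h3 : (F a) ((F b) v) = 0 :=
        congrArg (fun T : F.range => (T : Module.End k (LinearMap.range z)) v) hab
      apply hv
      apply hb
      apply ha
      rw [h3, map_zero, map_zero]
    exact NoZeroDivisors.to_isDomain F.range
  let G : C →ₗ[k] Module.End k V := (LinearMap.mulRight k z).comp C.val.toLinearMap
  let Fr : C →ₗ[k] F.range := F.rangeRestrict.toLinearMap
  have hG : ∀ X : C, Fr X = 0 ↔ G X = 0 := by
    intro X
    have h1 : Fr X = 0 ↔ F X = 0 :=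
      ⟨fun h => congrArg Subtype.val h, fun h => Subtype.ext h⟩
    exact h1.trans (hF0 X)
  have hr1 : finrank k F.range = finrank k (C.toSubmodule.map (LinearMap.mulRight k z)) := by
    have h1 := finrank_map_eq (U₁ := F.range) Fr G hG ⊤
    have h2 : (⊤ : Submodule k C).map Fr = ⊤ := by
      rw [Submodule.map_top, LinearMap.range_eq_top]
      exact F.rangeRestrict_surjective
    have h3 : (⊤ : Submodule k C).map G = C.toSubmodule.map (LinearMap.mulRight k z) := by
      rw [Submodule.map_comp]
      congr 1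
      rw [Submodule.map_top]
      exact Submodule.range_subtype C.toSubmodule
    rw [h2, h3, finrank_top] at h1
    exact h1
  have hr2 : finrank k (Algebra.adjoin k {F.rangeRestrict ⟨z, hzC⟩}) =
      finrank k ((Algebra.adjoin k {z}).toSubmodule.map (LinearMap.mulRight k z)) := by
    have h1 := finrank_map_eq (U₁ := F.range) Fr G hG
      (Algebra.adjoin k {(⟨z, hzC⟩ : C)}).toSubmodule
    have h2 : (Algebra.adjoin k {(⟨z, hzC⟩ : C)}).toSubmodule.map Fr =
        (Algebra.adjoin k {F.rangeRestrict ⟨z, hzC⟩}).toSubmodule := by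
      rw [← AlgHom.map_adjoin_singleton]
      rfl
    have h3 : (Algebra.adjoin k {(⟨z, hzC⟩ : C)}).toSubmodule.map G =
        (Algebra.adjoin k {z}).toSubmodule.map (LinearMap.mulRight k z) := by
      rw [Submodule.map_comp]
      congr 1
      have h4 := AlgHom.map_adjoin_singleton C.val (⟨z, hzC⟩ : C)
      exact congrArg Subalgebra.toSubmodule h4
    rw [h2, h3] at h1
    exact h1
  let 𝔨 : Submodule k F.range := (T.comap C.val.toLinearMap).map Fr
  have hmem : ∀ (a : Module.End k V) (ha : a ∈ C), a ∈ T → F.rangeRestrict ⟨a, ha⟩ ∈ 𝔨 :=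
    fun a ha h => ⟨⟨a, ha⟩, h, rfl⟩
  have key := comm_mem_k (k := k) (B := F.range) hp (F.rangeRestrict ⟨z, hzC⟩)
    (by
      rintro ⟨_, b, rfl⟩
      apply Subtype.ext
      show F b * F ⟨z, hzC⟩ = F ⟨z, hzC⟩ * F b
      rw [← map_mul, ← map_mul]
      congr 1
      exact Subtype.ext (hz b b.2))
    (by rw [hr1, hr2, hrk]) 𝔨
    (by
      rintro _ ⟨b, hb, rfl⟩
      exact ⟨⟨z, hzC⟩ * b, hzT b hb, map_mul F.rangeRestrict _ _⟩)
    (by
      rintro _ ⟨a, ha, rfl⟩ _ ⟨b, hb, rfl⟩
      refine ⟨a * b - b * a, hTbr a ha b hb, ?_⟩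
      show F.rangeRestrict (a * b - b * a) = _
      rw [map_sub, map_mul, map_mul]
      rfl)
    (hmem x (hqC x hx) (hqT x hx)) (hmem y (hqC y hy) (hqT y hy))
    (by
      intro h
      apply hne0
      rw [map_sub, sub_eq_zero, map_mul, map_mul]
      exact congrArg Subtype.val h)
    (F.rangeRestrict ⟨X, hX⟩) (F.rangeRestrict ⟨Y, hY⟩)
  obtain ⟨W, hW, hWe⟩ := key
  refine ⟨W, hW, ?_⟩
  have h5 : F (⟨X, hX⟩ * ⟨Y, hY⟩ - ⟨Y, hY⟩ * ⟨X, hX⟩ - W) = 0 := by
    rw [map_sub, map_sub, map_mul, map_mul, sub_eq_zero]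
    exact (congrArg Subtype.val hWe).symm
  have h6 := (hF0 _).1 h5
  have h7 : (X * Y - Y * X - (W : Module.End k V)) * z = 0 := h6
  rwa [sub_mul, sub_eq_zero] at h7

end Rat

end

end Pool.Agent.N768.BG
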